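import Pool.Agent.Run7.h83.FP.Iface

/-! # Project FP of helper83: pieces UP and DOWN (helper269) -/

set_option autoImplicit false

namespace Run7.h269.FP

open Run7.h83.FP Pool.Agent.Results.MP_eb30e1_co.FewestMembers

theorem exists_max {α : Type} [Finite α] {r : α → α → Prop} (hr : IsOrder r) (S : Set α)
    (hS : S.Nonempty) : ∃ a ∈ S, ∀ x ∈ S, r a x → x = a := by
  let R : α → α → Prop := fun x y => r y x ∧ x ≠ y
  have hT : IsTrans α R := ⟨by
    rintro x y z ⟨h1, h2⟩ ⟨h3, h4⟩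
    refine ⟨hr.2.2 _ _ _ h3 h1, ?_⟩
    rintro rfl
    exact h4 (hr.2.1 _ _ h1 h3)⟩
  have hI : Std.Irrefl R := ⟨fun x h => h.2 rfl⟩
  have wf : WellFounded R := Finite.wellFounded_of_trans_of_irrefl R
  obtain ⟨a, ha, h⟩ := wf.has_min S hS
  refine ⟨a, ha, fun x hx hax => ?_⟩
  by_contra hne
  exact h x hx ⟨hax, hne⟩

theorem flip_order {α : Type} {r : α → α → Prop} (hr : IsOrder r) :
    IsOrder (fun x y => r y x) :=
  ⟨hr.1, fun _ _ h1 h2 => hr.2.1 _ _ h2 h1, fun _ _ _ h1 h2 => hr.2.2 _ _ _ h2 h1⟩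

theorem comp {α : Type} {r s t : α → α → Prop} {k : ℕ} (h : Rch s k t) (h0 : Rch r 0 s) :
    Rch r k t := by
  induction h with
  | refl => exact h0
  | step _ hst ih => exact Rch.step ih hst
  | sw _ hst h1 h2 ih => exact Rch.sw ih hst h1 h2

theorem t_DOWN : S_DOWN := by
  intro α _ r hr
  obtain ⟨n, hn⟩ : ∃ n, Set.ncard {p : α × α | r p.1 p.2} = n := ⟨_, rfl⟩
  induction n using Nat.strong_induction_on generalizing r with
  | _ n ih =>
    by_cases h : ∃ x y, r x y ∧ x ≠ y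
    · obtain ⟨x0, b, hxb, hne⟩ := h
      obtain ⟨a, ⟨hab, hne'⟩, hmax⟩ := exists_max hr {x | r x b ∧ x ≠ b} ⟨x0, hxb, hne⟩
      set s : α → α → Prop := fun x y => r x y ∧ ¬ (x = a ∧ y = b) with hs
      have hso : IsOrder s := by
        refine ⟨fun x => ⟨hr.1 x, ?_⟩, fun x y h1 h2 => hr.2.1 _ _ h1.1 h2.1, ?_⟩
        · rintro ⟨rfl, rfl⟩
          exact hne' rfl
        · rintro x y z ⟨h1, h2⟩ ⟨h3, h4⟩
          refine ⟨hr.2.2 _ _ _ h1 h3, ?_⟩
          rintro ⟨rfl, rfl⟩
          by_cases hyz : y = z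
          · exact h2 ⟨rfl, hyz⟩
          · have := hmax y ⟨h3, hyz⟩ h1
            exact h4 ⟨this, rfl⟩
      have hlt : Set.ncard {p : α × α | s p.1 p.2} < n := by
        rw [← hn]
        apply Set.ncard_lt_ncard _ (Set.toFinite _)
        refine ⟨fun p hp => hp.1, fun hsub => ?_⟩
        have : (a, b) ∈ {p : α × α | s p.1 p.2} := hsub hab
        exact this.2 ⟨rfl, rfl⟩
      refine Rch.step (ih _ hlt s hso rfl) ⟨hso, hr, a, b, fun h => h.2 ⟨rfl, rfl⟩, ?_⟩
      intro x y
      constructor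
      · intro h
        by_cases h1 : x = a ∧ y = b
        · exact Or.inr h1
        · exact Or.inl ⟨h, h1⟩
      · rintro (h | ⟨rfl, rfl⟩)
        · exact h.1
        · exact hab
    · push Not at h
      have : r = fun x y => x = y := by
        funext x y
        apply propext
        exact ⟨h x y, fun h => h ▸ hr.1 x⟩
      rw [this]
      exact Rch.refl

theorem t_UP : S_UP := by
  intro α _ r hr
  obtain ⟨n, hn⟩ : ∃ n, Set.ncard {p : α × α | ¬ r p.1 p.2} = n := ⟨_, rfl⟩
  induction n using Nat.strong_induction_on generalizing r with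
  | _ n ih =>
    by_cases h : ∃ x y, ¬ r x y ∧ ¬ r y x
    · obtain ⟨x0, y0, h0⟩ := h
      obtain ⟨a, ⟨y1, hy1⟩, hmin⟩ := exists_max (flip_order hr) {x | ∃ y, ¬ r x y ∧ ¬ r y x}
        ⟨x0, y0, h0⟩
      obtain ⟨b, hb, hmax⟩ := exists_max hr {y | ¬ r a y ∧ ¬ r y a} ⟨y1, hy1⟩
      have hu : ∀ u, r u a → u ≠ a → r u b := by
        intro u hua hne
        by_contra hub
        have hbu : ¬ r b u := fun h => hb.2 (hr.2.2 _ _ _ h hua)
        exact hne (hmin u ⟨b, hub, hbu⟩ hua)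
      have hv : ∀ v, r b v → v ≠ b → r a v := by
        intro v hbv hne
        by_contra hav
        have hva : ¬ r v a := fun h => hb.2 (hr.2.2 _ _ _ hbv h)
        exact hne (hmax v ⟨hav, hva⟩ hbv)
      set s : α → α → Prop := fun x y => r x y ∨ (x = a ∧ y = b) with hs
      have hso : IsOrder s := by
        refine ⟨fun x => Or.inl (hr.1 x), ?_, ?_⟩
        · rintro x y (h1 | ⟨rfl, rfl⟩) (h2 | ⟨h3, h4⟩)
          · exact hr.2.1 _ _ h1 h2
          · rw [h3, h4] at h1
            exact absurd h1 hb.2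
          · exact absurd h2 hb.2
          · exact h4
        · rintro x y z (h1 | ⟨rfl, rfl⟩) (h2 | ⟨h3, h4⟩)
          · exact Or.inl (hr.2.2 _ _ _ h1 h2)
          · rw [h3] at h1
            rw [h4]
            by_cases hx : x = a
            · exact Or.inr ⟨hx, rfl⟩
            · exact Or.inl (hu x h1 hx)
          · by_cases hz : z = y
            · exact Or.inr ⟨rfl, hz⟩
            · exact Or.inl (hv z h2 hz)
          · exact Or.inr ⟨rfl, h4⟩
      have hlt : Set.ncard {p : α × α | ¬ s p.1 p.2} < n := by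
        rw [← hn]
        apply Set.ncard_lt_ncard _ (Set.toFinite _)
        refine ⟨fun p hp h => hp (Or.inl h), fun hsub => ?_⟩
        have : (a, b) ∈ {p : α × α | ¬ s p.1 p.2} := hsub hb.1
        exact this (Or.inr ⟨rfl, rfl⟩)
      obtain ⟨t, ht1, ht2, ht3⟩ := ih _ hlt s hso rfl
      refine ⟨t, ht1, ht2, comp ht3 (Rch.step Rch.refl ⟨hr, hso, a, b, hb.1, fun x y => Iff.rfl⟩)⟩
    · push Not at h
      refine ⟨r, hr, fun x y => ?_, Rch.refl⟩
      by_cases hxy : r x y
      · exact Or.inl hxy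
      · exact Or.inr (h x y hxy)

end Run7.h269.FP
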